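import Pool.Agent.Helper25.PC.Ord

/-!
Row LAT of MP_bd895b_L (Helper61): finite additive groups of functions with poles bounded by a
fixed divisor and `r` times the divisor of poles of `t`.
-/

namespace PCl

open Polynomial

variable {F k : Type*} [Field F] [Finite F] [Field k] [Algebra F k]

theorem IsOrd.const {A : ValuationSubring k} {o : k → ℤ} (h : IsOrd A o) {a : F} (ha : a ≠ 0) :
    o (algebraMap F k a) = 0 := by
  have h0 : algebraMap F k a ≠ 0 := by
    rw [Ne, map_eq_zero]
    exact ha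
  have h1 := (h.nonneg _ h0).2 (F_mem A a)
  have h2 := (h.nonneg _ (inv_ne_zero h0)).2 (by
    rw [← map_inv₀]
    exact F_mem A a⁻¹)
  rw [h.inv h0] at h2
  omega

theorem IsOrd.aeval_bound {A : ValuationSubring k} {o : k → ℤ} (h : IsOrd A o) {t : k}
    (ht : t ≠ 0) (p : F[X]) {r : ℕ} (hp : p.natDegree ≤ r) (h0 : aeval t p ≠ 0) :
    -((r : ℤ) * max (-(o t)) 0) ≤ o (aeval t p) := by
  rw [aeval_eq_sum_range' (Nat.lt_succ_of_le hp)] at h0 ⊢
  refine h.le_sum _ _ _ (fun j hj hj0 => ?_) h0
  have hj' : j ≤ r := Nat.lt_succ_iff.1 (Finset.mem_range.1 hj)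
  have hc : p.coeff j ≠ 0 := by
    intro hc
    apply hj0
    rw [hc, zero_smul]
  rw [Algebra.smul_def, h.mul _ _ (by rwa [Ne, map_eq_zero]) (pow_ne_zero _ ht), h.const hc,
    h.pow ht, zero_add]
  have h1 : -(o t) ≤ max (-(o t)) 0 := le_max_left _ _
  have h2 : 0 ≤ max (-(o t)) 0 := le_max_right _ _
  have h3 : (j : ℤ) ≤ r := by exact_mod_cast hj'
  have h4 : (0 : ℤ) ≤ j := by positivity
  nlinarith

/-- Row LAT: lattices. -/
theorem lattice' (hfa : ∀ z : k, z ≠ 0 → {A : ValuationSubring k | z ∈ A.nonunits}.Finite)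
    (o : ValuationSubring k → k → ℤ) (ho : ∀ A, A ≠ ⊤ → IsOrd A (o A))
    {t : k} (ht : Transcendental F t) {n : ℕ} (hI : Ind F t n) :
    ∃ (S : Finset (ValuationSubring k)) (C : ValuationSubring k → ℕ), (∀ A ∈ S, A ≠ ⊤) ∧
      (∀ A ∉ S, C A = 0) ∧ ∀ r : ℕ, ∃ W : AddSubgroup k, Finite W ∧
        Nat.card W = Nat.card F ^ (n * (r + 1)) ∧
        ∀ y ∈ W, y ≠ 0 → ∀ A, A ≠ ⊤ → -(C A : ℤ) - r * max (-(o A t)) 0 ≤ o A y := by
  classical
  obtain ⟨u, hu⟩ := hI
  have ht0 : t ≠ 0 := by
    rintro rfl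
    exact ht isAlgebraic_zero
  have hu0 : ∀ i, u i ≠ 0 := by
    intro i hi
    have h1 := hu (Pi.single i 1) (by
      rw [Finset.sum_eq_single i]
      · rw [hi, mul_zero]
      · intro j _ hj
        rw [Pi.single_eq_of_ne hj, map_zero, zero_mul]
      · intro h
        exact absurd (Finset.mem_univ i) h)
    have h2 := congrFun h1 i
    rw [Pi.single_eq_same] at h2
    exact one_ne_zero h2
  have hSf : (⋃ i, {A : ValuationSubring k | (u i)⁻¹ ∈ A.nonunits}).Finite :=
    Set.finite_iUnion fun i => hfa _ (inv_ne_zero (hu0 i))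
  let C : ValuationSubring k → ℕ := fun A =>
    if A = ⊤ then 0 else Finset.univ.sup fun i => (-(o A (u i))).toNat
  refine ⟨hSf.toFinset.filter (fun A => A ≠ ⊤), C, ?_, ?_, ?_⟩
  · intro A hA
    exact (Finset.mem_filter.1 hA).2
  · intro A hA
    by_cases hT : A = ⊤
    · simp only [C, if_pos hT]
    simp only [C, if_neg hT]
    rw [← Nat.le_zero, Finset.sup_le_iff]
    intro i _
    have h1 : A ∉ hSf.toFinset := fun h => hA (Finset.mem_filter.2 ⟨h, hT⟩)
    rw [Set.Finite.mem_toFinset, Set.mem_iUnion] at h1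
    push Not at h1
    have h2 := h1 i
    rw [Set.mem_ofPred_eq, ← (ho A hT).pos_iff (inv_ne_zero (hu0 i)), (ho A hT).inv (hu0 i)] at h2
    omega
  · intro r
    let φ : (Fin n → degreeLT F (r + 1)) →ₗ[F] k :=
      { toFun := fun c => ∑ i, aeval t (c i : F[X]) * u i
        map_add' := fun a b => by
          rw [← Finset.sum_add_distrib]
          refine Finset.sum_congr rfl fun i _ => ?_
          simp [add_mul]
        map_smul' := fun a c => by
          rw [RingHom.id_apply, Finset.smul_sum]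
          refine Finset.sum_congr rfl fun i _ => ?_
          simp }
    have hφ : Function.Injective φ := by
      rw [← LinearMap.ker_eq_bot, LinearMap.ker_eq_bot']
      intro c hc
      have := hu (fun i => (c i : F[X])) hc
      funext i
      exact Subtype.ext (congrFun this i)
    have hfinD : Finite (Fin n → degreeLT F (r + 1)) := by
      have : Finite (degreeLT F (r + 1)) := Finite.of_equiv _ (degreeLTEquiv F (r + 1)).toEquiv.symm
      infer_instance
    refine ⟨φ.range.toAddSubgroup, ?_, ?_, ?_⟩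
    · exact Finite.of_equiv _ (LinearEquiv.ofInjective φ hφ).toEquiv
    · have h1 : Nat.card φ.range.toAddSubgroup = Nat.card (Fin n → degreeLT F (r + 1)) :=
        Nat.card_congr (LinearEquiv.ofInjective φ hφ).toEquiv.symm
      have h2 : Nat.card (degreeLT F (r + 1)) = Nat.card F ^ (r + 1) := by
        rw [Nat.card_congr (degreeLTEquiv F (r + 1)).toEquiv, Nat.card_fun, Nat.card_fin]
      rw [h1, Nat.card_fun, h2, Nat.card_fin, ← pow_mul, mul_comm]
    · rintro y ⟨c, rfl⟩ hy A hA
      have hφc : φ c = ∑ i, aeval t (c i : F[X]) * u i := rfl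
      rw [hφc] at hy ⊢
      refine (ho A hA).le_sum _ _ _ (fun i _ hi0 => ?_) hy
      have h0 : aeval t (c i : F[X]) ≠ 0 := fun h => hi0 (by rw [h, zero_mul])
      rw [(ho A hA).mul _ _ h0 (hu0 i)]
      have hdeg : ((c i : F[X])).natDegree ≤ r := by
        have h1 := mem_degreeLT.1 (c i).2
        by_cases hz : (c i : F[X]) = 0
        · rw [hz]; simp
        rw [degree_eq_natDegree hz] at h1
        exact Nat.lt_succ_iff.1 (by exact_mod_cast h1)
      have h1 := (ho A hA).aeval_bound ht0 (c i : F[X]) hdeg h0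
      have h2 : (-(o A (u i))).toNat ≤ C A := by
        simp only [C, if_neg hA]
        exact Finset.le_sup (f := fun i => (-(o A (u i))).toNat) (Finset.mem_univ i)
      have h3 : -(o A (u i)) ≤ (C A : ℤ) := by
        have h4 : -(o A (u i)) ≤ ((-(o A (u i))).toNat : ℤ) := Int.self_le_toNat _
        have h5 : (((-(o A (u i))).toNat : ℕ) : ℤ) ≤ (C A : ℤ) := by exact_mod_cast h2
        linarith
      linarith

end PCl
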