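import Pool.Agent.Helper25.PC.Ord

/-!
Row PRO of MP_bd895b_L, two lemmas (Helper61): relations over `F[z⁻¹]`, and the existence of a pole.
-/

namespace PCl

open Polynomial

variable {F k : Type*} [Field F] [Field k] [Algebra F k]

theorem aeval_reflect {z : k} (hz : z ≠ 0) (M : ℕ) (p : F[X]) (hp : p.natDegree ≤ M) :
    aeval z⁻¹ (reflect M p) * z ^ M = aeval z p := by
  let _ : Invertible z := invertibleOfNonzero hz
  have h := eval₂_reflect_mul_pow (algebraMap F k) z M p hp
  rw [invOf_eq_inv] at h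
  exact h

theorem rel_inv {z : k} (hz : z ≠ 0) {n : ℕ} (h : Rel F z n) : Rel F z⁻¹ n := by
  classical
  intro y
  obtain ⟨c, hc0, hc⟩ := h y
  let M : ℕ := Finset.univ.sup fun i => (c i).natDegree
  have hM : ∀ i, (c i).natDegree ≤ M := fun i =>
    Finset.le_sup (f := fun i => (c i).natDegree) (Finset.mem_univ i)
  refine ⟨fun i => reflect M (c i), ?_, ?_⟩
  · intro h0
    apply hc0
    funext i
    have h1 := congrFun h0 i
    simp only [Pi.zero_apply] at h1 ⊢
    exact (reflect_eq_zero_iff).1 h1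
  · have h1 : (∑ i, aeval z⁻¹ (reflect M (c i)) * y i) * z ^ M = 0 := by
      rw [Finset.sum_mul, ← hc]
      refine Finset.sum_congr rfl fun i _ => ?_
      rw [← aeval_reflect hz M (c i) (hM i)]
      ring
    exact (mul_eq_zero.1 h1).resolve_right (pow_ne_zero M hz)

theorem exists_place_inv {y : k} (htr : Transcendental F y) :
    ∃ A : ValuationSubring k, A ≠ ⊤ ∧ y⁻¹ ∈ A.nonunits := by
  have hy0 : y ≠ 0 := by
    rintro rfl
    exact htr isAlgebraic_zero
  have htr' : Transcendental F y⁻¹ := by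
    intro h
    apply htr
    have := h.inv
    rwa [inv_inv] at this
  let A : Subring k := (Algebra.adjoin F {y⁻¹}).toSubring
  let w : A := ⟨y⁻¹, Algebra.subset_adjoin rfl⟩
  have hI : Ideal.span {w} ≠ ⊤ := by
    intro h
    have h1 : (1 : A) ∈ Ideal.span {w} := by rw [h]; trivial
    rw [Ideal.mem_span_singleton] at h1
    obtain ⟨⟨b, hb⟩, hb1⟩ := h1
    have h2 : (1 : k) = y⁻¹ * b := congrArg Subtype.val hb1
    have h3 : b ∈ Algebra.adjoin F {y⁻¹} := hb
    rw [Algebra.adjoin_singleton_eq_range_aeval] at h3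
    obtain ⟨p, rfl⟩ := h3
    apply htr'
    refine ⟨1 - X * p, ?_, ?_⟩
    · intro h4
      have h5 := congrArg (fun q => q.coeff 0) h4
      simp at h5
    · rw [map_sub, map_one, map_mul, aeval_X]
      exact sub_eq_zero.2 h2
  obtain ⟨B, -, hB⟩ := Ideal.image_subset_nonunits_valuationSubring (Ideal.span {w}) hI
  have hyB : y⁻¹ ∈ B.nonunits :=
    hB ⟨w, Ideal.subset_span rfl, rfl⟩
  refine ⟨B, ?_, hyB⟩
  intro hT
  rw [B.mem_nonunits_iff_or] at hyB
  rcases hyB with h | h
  · exact inv_ne_zero hy0 h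
  · apply h
    rw [hT]
    trivial

end PCl
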